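import Pool.Agent.TH47.Lev.Final

/-!
# MP_36627d_co: levelness of the Artinian reduction of natural 3-spheres

For every simplicial 4-polytope `P` whose boundary complex has no missing face of dimension
greater than 2, the ring `A(∂P) = ℝ[∂P] / (Θ, c)`, formed with the natural embedding, is level.
The definitions are in `Pool.Agent.TH47.Lev.Defs`.

* `IsSimplicialPolytope p`: the points `p v` (v in `Fin n`) are the vertices of a simplicial
  4-polytope in `ℝ⁴`;
* `IsFace p σ`: `σ` is the vertex set of a proper face;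
* `natIdeal p`: the ideal `I_Δ + (θ_1, θ_2, θ_3, θ_4, c)` of `ℝ[x_1, ..., x_n]`, so that
  `A(∂P)` is the quotient by it.
-/

namespace Pool.Agent.Results.MP_36627d_co.LevelNaturalSpheres

open MvPolynomial Pool.Agent.TH47

/-- Let `P` be a simplicial 4-polytope with vertices `p v`, all of whose missing faces have at
most 3 vertices. If a polynomial `y` is a socle element of `A(∂P)` (all `x_v y` vanish in
`A(∂P)`) then its homogeneous components of degrees 0 and 1 vanish in `A(∂P)`; moreover
`A(∂P)_2 ≠ 0`. -/
theorem result {n : ℕ} (p : Fin n → (Fin 4 → ℝ)) (hP : Lev.IsSimplicialPolytope p)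
    (hS : ∀ S : Finset (Fin n), Lev.IsMissingFace p S → S.card ≤ 3) :
    (∀ y : MvPolynomial (Fin n) ℝ, (∀ v : Fin n, X v * y ∈ Lev.natIdeal p) →
      homogeneousComponent 0 y ∈ Lev.natIdeal p ∧
      homogeneousComponent 1 y ∈ Lev.natIdeal p) ∧
    ∃ q : MvPolynomial (Fin n) ℝ, q.IsHomogeneous 2 ∧ q ∉ Lev.natIdeal p :=
  ⟨fun y hy => Lev.level_main hP hS y hy, Lev.quadric_main hP hS⟩

end Pool.Agent.Results.MP_36627d_co.LevelNaturalSpheres
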